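import Pool.Agent.N54.ME.Three
import Pool.Agent.N647.TS.Thin

set_option autoImplicit false

/-! Well distributed sequences of vectors of natural numbers. The files of this folder are the files of
`Pool.Agent.N647.TS` (helper647) with the same names, for these sequences. -/

namespace Pool.Agent.N54.MW

open Finset Filter
open Pool.Agent.N647.TS
open Pool.Agent.N666.VE (primes)
open Pool.Agent.N54.ME (WS)

/-- well distributed modulo the integers up to `N ^ κ`, over the integers and over the primes -/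
def WW {d : ℕ} (v : ℕ → Fin d → ℕ) (κ : ℝ) : Prop :=
  ∃ N₀ : ℕ, ∀ N : ℕ, N₀ ≤ N → ∀ H : ℕ, (H : ℝ) ≤ (N : ℝ) ^ κ →
    WellN (Ioc N (2 * N)) v H ∧ WellN (primes N) v H

theorem ww_of_ws {d : ℕ} {x : ℕ → Fin d → ℤ} {v : ℕ → Fin d → ℕ} {κ : ℝ} (h : WS x κ)
    (hv : ∀ᶠ n : ℕ in atTop, ∀ i, x n i = (v n i : ℤ)) : WW v κ := by
  obtain ⟨N₂, h₂⟩ := h
  obtain ⟨N₃, h₃⟩ := eventually_atTop.1 hv
  refine ⟨N₂ + N₃, fun N hN H hH => ⟨?_, ?_⟩⟩
  · refine wellN_of_well (h₂ N (by omega) H hH).1 fun n hn i => ?_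
    rw [mem_Ioc] at hn
    exact h₃ n (by omega) i
  · refine wellN_of_well (h₂ N (by omega) H hH).2 fun n hn i => ?_
    unfold Pool.Agent.N666.VE.primes at hn
    rw [mem_filter, mem_Ioc] at hn
    exact h₃ n (by omega) i

end Pool.Agent.N54.MW
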