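import Pool.Agent.N54.MW.GenT
import Pool.Agent.N842.HS.GenP

/-!
# Products of local functions of moderate growth, at the integer parts of generalised polynomials

The analogue of `Pool.Agent.N842.HS.genp`.
-/

set_option autoImplicit false

namespace Pool.Agent.N54.MW

open Pool.Agent.N647.TS

open Finset
open Pool.Agent.TH894.NE (mean box mem_box)
open Pool.Agent.TH894.NF (pr pr_prime)
open Pool.Agent.N842.HS (pr_mono pi_pr pr_bound)

open Classical in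
/-- **Products of local functions of moderate growth at several consecutive primes.** -/
theorem genpT (d s : ℕ) (hd : 1 ≤ d) (hs : 1 ≤ s) {vv : ℕ → Fin d → ℕ} {κw : ℝ}
    (hκw : 0 < κw) (h : WW vv κw) (δ : ℝ) (hδ : 0 < δ) (A B : ℕ) {Θ : Type} (Q : Finset Θ)
    (F : Θ → ℕ → (Fin d → ℕ) → ℝ) (M : Θ → ℕ → ℝ) (η : ℝ) (hη : 0 ≤ η)
    (hper : ∀ θ ∈ Q, ∀ p, p.Prime → ∀ m, F θ p m = F θ p (fun j => m j % p))
    (hbd : ∀ θ ∈ Q, ∃ C : ℝ, ∀ p : ℕ, p.Prime → (∀ m, |F θ p m| ≤ C * (p : ℝ) ^ η) ∧ |M θ p| ≤ C * (p : ℝ) ^ η)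
    (hmean : ∀ θ ∈ Q, ∃ C : ℝ, 0 ≤ C ∧ ∀ p, p.Prime → |mean d p (F θ p) - M θ p| ≤ C / Real.sqrt p) :
    ∃ κ : ℝ, 0 < κ ∧ ∃ y₀ : ℕ, ∀ y N : ℕ, y₀ ≤ y →
    ∀ W : ℕ → Set (ℕ → ℝ), (∀ x, (W x).Finite ∧ (W x).ncard ≤ x ^ B) → (∀ x, ∀ w ∈ W x, ∀ k, |w k| ≤ 1) →
    ∀ E : (Fin d → ℕ) → Prop,
    (∀ m : Fin d → ℕ, (∀ x : ℕ, y ≤ x → (x : ℝ) ≤ (N : ℝ) ^ κ → ∀ w ∈ W x, ∀ q : Fin s → Θ, (∀ e, q e ∈ Q) →
      |∑ k ∈ range x, w k * ∏ e : Fin s, F (q e) (pr (k + e)) m - ∑ k ∈ range x, w k * ∏ e : Fin s, M (q e) (pr (k + e))| ≤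
        Real.sqrt (max 1 (∑ k ∈ range x, w k ^ 2)) * (x : ℝ) ^ (s * η + δ)) → E m) →
    (((Ioc N (2 * N)).filter fun t => ¬ E (vv t)).card : ℝ) ≤ 1 / (y : ℝ) ^ A * N ∧
    ((((Ioc N (2 * N)).filter Nat.Prime).filter fun t => ¬ E (vv t)).card : ℝ) ≤
      1 / (y : ℝ) ^ A * ((Ioc N (2 * N)).filter Nat.Prime).card := by
  have hpη : ∀ p : ℕ, p.Prime → 1 ≤ (p : ℝ) ^ η := fun p hp => Real.one_le_rpow (by exact_mod_cast hp.one_lt.le) hη
  obtain ⟨κ, hκ, y₀, h'⟩ := genT d s hd hs hκw h (δ / 2) (by positivity) A B Q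
    (fun θ p m => F θ p m / (p : ℝ) ^ η) (fun θ p => M θ p / (p : ℝ) ^ η)
    (fun θ hθ p hp m => by
      beta_reduce
      rw [← hper θ hθ p hp m])
    (fun θ hθ => by
      obtain ⟨C, hC⟩ := hbd θ hθ
      refine ⟨C, fun p hp => ⟨fun m => ?_, ?_⟩⟩
      · have h1 := hpη p hp
        rw [abs_div, abs_of_pos (by linarith : 0 < (p : ℝ) ^ η), div_le_iff₀ (by linarith)]
        exact (hC p hp).1 m
      · have h1 := hpη p hp
        rw [abs_div, abs_of_pos (by linarith : 0 < (p : ℝ) ^ η), div_le_iff₀ (by linarith)]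
        exact (hC p hp).2)
    (fun θ hθ => by
      obtain ⟨C, hC0, hC⟩ := hmean θ hθ
      refine ⟨C, hC0, fun p hp => ?_⟩
      have h1 := hpη p hp
      have e1 : mean d p (fun m => F θ p m / (p : ℝ) ^ η) = mean d p (F θ p) / (p : ℝ) ^ η := by
        unfold Pool.Agent.TH894.NE.mean
        rw [← sum_div]
        ring
      rw [e1, ← sub_div, abs_div, abs_of_pos (by linarith : 0 < (p : ℝ) ^ η)]
      exact (div_le_self (abs_nonneg _) h1).trans (hC p hp))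
  -- the growth of the primes
  have hev1 := pr_bound s (δ / (2 * (s * η + 1))) (by positivity)
  obtain ⟨x₀, hx₀⟩ := Filter.eventually_atTop.1 hev1
  refine ⟨κ, hκ, y₀ + x₀ + 1, fun y N hy W hW hW1 E hE => ?_⟩
  obtain ⟨PP, hP⟩ : ∃ PP : ℕ → ℝ, PP = fun x => (pr (x + s) : ℝ) := ⟨_, rfl⟩
  have hPx : ∀ x, PP x = (pr (x + s) : ℝ) := fun x => by rw [hP]
  have hPpos : ∀ x, 0 < PP x := by
    intro x
    rw [hPx]
    exact_mod_cast (pr_prime _).pos
  obtain ⟨g, hg⟩ : ∃ g : ℕ → (ℕ → ℝ) → (ℕ → ℝ), g = fun x w k => if k < x then w k * ∏ e : Fin s, ((pr (k + e) : ℝ) / PP x) ^ η else 0 := ⟨_, rfl⟩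
  have hle1 : ∀ x k, k < x → ∀ e : Fin s, 0 ≤ ((pr (k + e) : ℝ) / PP x) ^ η ∧ ((pr (k + e) : ℝ) / PP x) ^ η ≤ 1 := by
    intro x k hk e
    have h1 : (pr (k + e) : ℝ) ≤ PP x := by
      rw [hPx]
      have : pr (k + e) ≤ pr (x + s) := pr_mono.monotone (by have := e.2; omega)
      exact_mod_cast this
    have h2 : 0 ≤ (pr (k + e) : ℝ) / PP x := div_nonneg (Nat.cast_nonneg _) (hPpos x).le
    exact ⟨by positivity, Real.rpow_le_one h2 ((div_le_one (hPpos x)).2 h1) hη⟩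
  have hg1 : ∀ x w k, |w k| ≤ 1 → |g x w k| ≤ |w k| := by
    intro x w k _
    rw [hg]
    show |if k < x then w k * ∏ e : Fin s, ((pr (k + e) : ℝ) / PP x) ^ η else 0| ≤ |w k|
    by_cases hk : k < x
    · rw [if_pos hk, abs_mul, abs_of_nonneg (prod_nonneg fun e _ => (hle1 x k hk e).1)]
      exact mul_le_of_le_one_right (abs_nonneg _) (prod_le_one (fun e _ => (hle1 x k hk e).1) fun e _ => (hle1 x k hk e).2)
    · rw [if_neg hk, abs_zero]
      exact abs_nonneg _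
  refine h' y N (by omega) (fun x => g x '' W x) (fun x => ⟨(hW x).1.image _, (Set.ncard_image_le (hW x).1).trans (hW x).2⟩)
    (fun x w' hw' k => by
      obtain ⟨w, hw, rfl⟩ := hw'
      exact (hg1 x w k (hW1 x w hw k)).trans (hW1 x w hw k)) E fun m hm => ?_
  refine hE m fun x hyx hxr w hw q hq => ?_
  have h1 := hm x hyx hxr (g x w) ⟨w, hw, rfl⟩ q hq
  obtain ⟨T, hT⟩ : ∃ T : ℝ, T = (PP x) ^ η := ⟨_, rfl⟩
  have hT0 : 0 < T := by
    rw [hT]
    have := hPpos x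
    positivity
  have hx1 : 1 ≤ x := by omega
  -- the sums
  have h2 : ∀ G : ℕ → Fin s → ℝ, ∑ k ∈ range x, g x w k * ∏ e : Fin s, (G k e / (pr (k + e) : ℝ) ^ η) = (∑ k ∈ range x, w k * ∏ e : Fin s, G k e) / T ^ s := by
    intro G
    rw [sum_div]
    refine sum_congr rfl fun k hk => ?_
    rw [mem_range] at hk
    rw [hg]
    beta_reduce
    rw [if_pos hk, mul_assoc, ← prod_mul_distrib, mul_div_assoc]
    congr 1
    have e1 : ∀ e : Fin s, ((pr (k + e) : ℝ) / PP x) ^ η * (G k e / (pr (k + e) : ℝ) ^ η) = G k e / T := by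
      intro e
      have e2 : (0 : ℝ) < pr (k + e) := by exact_mod_cast (pr_prime _).pos
      rw [Real.div_rpow e2.le (hPpos x).le, hT]
      have e3 : (0 : ℝ) < (pr (k + e) : ℝ) ^ η := by positivity
      field_simp
    rw [prod_congr rfl (fun e _ => e1 e), prod_div_distrib, prod_const, card_univ, Fintype.card_fin]
  have h3 := h2 (fun k e => F (q e) (pr (k + e)) m)
  have h4 := h2 (fun k e => M (q e) (pr (k + e)))
  have h5 : ∑ k ∈ range x, g x w k * ∏ e : Fin s, (F (q e) (pr (k + e)) m / (pr (k + e) : ℝ) ^ η) -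
      ∑ k ∈ range x, g x w k * ∏ e : Fin s, (M (q e) (pr (k + e)) / (pr (k + e) : ℝ) ^ η) =
      (∑ k ∈ range x, w k * ∏ e : Fin s, F (q e) (pr (k + e)) m - ∑ k ∈ range x, w k * ∏ e : Fin s, M (q e) (pr (k + e))) / T ^ s := by
    rw [sub_div, ← h3, ← h4]
  have h6 := h1
  beta_reduce at h6
  rw [h5, abs_div, abs_of_pos (by positivity : 0 < T ^ s), div_le_iff₀ (by positivity)] at h6
  refine h6.trans ?_
  have h7 : ∑ k ∈ range x, g x w k ^ 2 ≤ ∑ k ∈ range x, w k ^ 2 := by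
    refine sum_le_sum fun k _ => ?_
    exact sq_le_sq.2 (hg1 x w k (hW1 x w hw k))
  have hx0 : (0 : ℝ) < x := by exact_mod_cast hx1
  have hx1' : (1 : ℝ) ≤ x := by exact_mod_cast hx1
  have h8 : T ^ s ≤ (x : ℝ) ^ (s * η + δ / 2) := by
    have e1 := hx₀ x (by omega)
    rw [← hPx] at e1
    have e2 : T ^ s = (PP x) ^ (s * η) := by
      rw [hT, ← Real.rpow_natCast, ← Real.rpow_mul (hPpos x).le]
      congr 1
      ring
    rw [e2]
    have hsη : 0 ≤ s * η := by positivity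
    refine (Real.rpow_le_rpow (hPpos x).le e1 hsη).trans ?_
    rw [← Real.rpow_mul hx0.le]
    apply Real.rpow_le_rpow_of_exponent_le hx1'
    have e3 : (1 + δ / (2 * (s * η + 1))) * (s * η) = s * η + δ / 2 * (s * η / (s * η + 1)) := by
      field_simp
    rw [e3]
    have e4 : s * η / (s * η + 1) ≤ 1 := (div_le_one (by linarith)).2 (by linarith)
    have e5 : δ / 2 * (s * η / (s * η + 1)) ≤ δ / 2 * 1 := mul_le_mul_of_nonneg_left e4 (by linarith)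
    linarith
  have h9 : (x : ℝ) ^ (s * η + δ) = (x : ℝ) ^ (δ / 2) * (x : ℝ) ^ (s * η + δ / 2) := by
    rw [← Real.rpow_add hx0]
    congr 1
    ring
  rw [h9]
  have h10 : Real.sqrt (max 1 (∑ k ∈ range x, g x w k ^ 2)) ≤ Real.sqrt (max 1 (∑ k ∈ range x, w k ^ 2)) :=
    Real.sqrt_le_sqrt (max_le_max le_rfl h7)
  calc Real.sqrt (max 1 (∑ k ∈ range x, g x w k ^ 2)) * (x : ℝ) ^ (δ / 2) * T ^ s ≤
      Real.sqrt (max 1 (∑ k ∈ range x, w k ^ 2)) * (x : ℝ) ^ (δ / 2) * (x : ℝ) ^ (s * η + δ / 2) := by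
        apply mul_le_mul _ h8 (by positivity) (by positivity)
        exact mul_le_mul_of_nonneg_right h10 (by positivity)
    _ = _ := by ring

end Pool.Agent.N54.MW
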