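import Pool.Agent.N54.MW.GenPT
import Pool.Agent.N842.HS.NFW

/-!
# Local functions over number fields, with weights of the prime ideals of degree one, at the integer parts of generalised polynomials

The analogue of `Pool.Agent.N842.HS.genRW`.
-/

set_option autoImplicit false

namespace Pool.Agent.N54.MW

open Pool.Agent.N647.TS

open Finset
open Pool.Agent.TH894.NE (mean box mem_box)
open Pool.Agent.TH894.NF (pr pr_prime)
open Pool.Agent.N842.HS

section
variable {R : Type} [CommRing R]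

open Classical in
/-- **Local functions over number fields at several consecutive primes, with weights of the tuples of prime ideals.** -/
theorem genRT [Module.Finite ℤ R] (g D s : ℕ) (ω : Fin g → R) (hω : (1 : R) ∈ Submodule.span ℤ (Set.range ω)) (hD : 1 ≤ D * g) (hs : 1 ≤ s)
    {vv : ℕ → Fin (D * g) → ℕ} {κw : ℝ}
    (hκw : 0 < κw) (h : WW vv κw)
    (δ : ℝ) (hδ : 0 < δ) (A B : ℕ) {Θ : Type} (Q : Finset Θ)
    (G : Θ → ∀ (p : ℕ) [Fact p.Prime], (Fin D → ZMod p) → ℝ) (M : Θ → ℕ → ℝ) (η : ℝ) (hη : 0 ≤ η)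
    (hbd : ∀ θ ∈ Q, ∃ C : ℝ, 0 ≤ C ∧ ∀ (p : ℕ) [Fact p.Prime], (∀ u, |G θ p u| ≤ C * (p : ℝ) ^ η) ∧ |M θ p| ≤ C * (p : ℝ) ^ η)
    (hmean : ∀ θ ∈ Q, ∃ C : ℝ, 0 ≤ C ∧ ∀ (p : ℕ) [Fact p.Prime], |(∑ u : Fin D → ZMod p, G θ p u) / (p : ℝ) ^ D - M θ p| ≤ C / Real.sqrt p) :
    ∃ κ : ℝ, 0 < κ ∧ ∃ y₀ : ℕ, ∀ y N : ℕ, y₀ ≤ y →
    ∀ W : ℕ → Set ((k : ℕ) → ((e : Fin s) → (R →+* ZMod (Nat.nth Nat.Prime (k + e)))) → ℝ), (∀ x, (W x).Finite ∧ (W x).ncard ≤ x ^ B) →
      (∀ x, ∀ w ∈ W x, ∀ k φ, |w k φ| ≤ 1) →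
    ∀ E : (Fin (D * g) → ℕ) → Prop,
    (∀ m : Fin (D * g) → ℕ, (∀ x : ℕ, y ≤ x → (x : ℝ) ≤ (N : ℝ) ^ κ → ∀ w ∈ W x, ∀ q : Fin s → Θ, (∀ e, q e ∈ Q) →
      |∑ k ∈ range x, ∑ᶠ φ : (e : Fin s) → (R →+* ZMod (Nat.nth Nat.Prime (k + e))),
          w k φ * (∏ e : Fin s, G (q e) (Nat.nth Nat.Prime (k + e)) (fun j => φ e (cf ω m j)) - ∏ e : Fin s, M (q e) (Nat.nth Nat.Prime (k + e)))| ≤
        Real.sqrt (max 1 (∑ k ∈ range x, ∑ᶠ φ : (e : Fin s) → (R →+* ZMod (Nat.nth Nat.Prime (k + e))), w k φ ^ 2)) *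
          (x : ℝ) ^ (s * η + δ)) → E m) →
    (((Ioc N (2 * N)).filter fun t => ¬ E (vv t)).card : ℝ) ≤ 1 / (y : ℝ) ^ A * N ∧
    ((((Ioc N (2 * N)).filter Nat.Prime).filter fun t => ¬ E (vv t)).card : ℝ) ≤
      1 / (y : ℝ) ^ A * ((Ioc N (2 * N)).filter Nat.Prime).card := by
  obtain ⟨n, hn⟩ := hom_card R
  obtain ⟨κ, hκ, y₀, hg⟩ := genpT (D * g) s hD hs hκw h (δ / 2) (by positivity) A (B + 1) (Q ×ˢ (univ : Finset (Fin n)))
    (fun θ p m => LF ω (G θ.1) θ.2 p m) (fun θ p => LM R (M θ.1) θ.2 p) η hη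
    (fun θ _ p _ m => LF_mod ω (G θ.1) θ.2 p m)
    (fun θ hθ => by
      obtain ⟨C, hC0, hC⟩ := hbd θ.1 (mem_product.1 hθ).1
      refine ⟨C, fun p hp => ?_⟩
      have : Fact p.Prime := ⟨hp⟩
      have hpη : 0 ≤ C * (p : ℝ) ^ η := by positivity
      constructor
      · intro m
        unfold LF
        rw [dif_pos hp]
        split_ifs with h
        · exact (hC p).1 _
        · rw [abs_zero]
          exact hpη
      · unfold LM
        split_ifs with h
        · exact (hC p).2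
        · rw [abs_zero]
          exact hpη)
    (fun θ hθ => by
      obtain ⟨C, hC0, hC⟩ := hmean θ.1 (mem_product.1 hθ).1
      refine ⟨C, hC0, fun p hp => ?_⟩
      have : Fact p.Prime := ⟨hp⟩
      have h1 : mean (D * g) p (fun m => LF ω (G θ.1) θ.2 p m) = if (θ.2 : ℕ) < Nat.card (R →+* ZMod p) then (∑ u : Fin D → ZMod p, G θ.1 p u) / (p : ℝ) ^ D else 0 :=
        LF_mean ω hω (G θ.1) θ.2 p
      rw [h1]
      unfold LM
      split_ifs with h
      · exact hC p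
      · rw [sub_zero, abs_zero]
        positivity)
  have hev : ∀ᶠ x : ℕ in Filter.atTop, (n : ℝ) ^ s ≤ (x : ℝ) ^ (δ / 2) :=
    ((tendsto_rpow_atTop (by positivity : 0 < δ / 2)).comp tendsto_natCast_atTop_atTop).eventually (Filter.eventually_ge_atTop _)
  obtain ⟨x₀, hx₀⟩ := Filter.eventually_atTop.1 hev
  refine ⟨κ, hκ, y₀ + x₀ + n ^ s, fun y N hy W hW hW1 E hE => ?_⟩
  obtain ⟨W', hW'⟩ : ∃ W' : ℕ → Set (ℕ → ℝ), W' = fun x => if n ^ s ≤ x then
    (fun z : (Fin s → Fin n) × ((k : ℕ) → ((e : Fin s) → (R →+* ZMod (Nat.nth Nat.Prime (k + e)))) → ℝ) => wt z.2 z.1) '' ((Set.univ : Set (Fin s → Fin n)) ×ˢ W x) else ∅ := ⟨_, rfl⟩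
  have hWc : ∀ x, (W' x).Finite ∧ (W' x).ncard ≤ x ^ (B + 1) := by
    intro x
    rw [hW']
    beta_reduce
    split_ifs with h
    · have hfin : ((Set.univ : Set (Fin s → Fin n)) ×ˢ W x).Finite := Set.finite_univ.prod (hW x).1
      refine ⟨hfin.image _, (Set.ncard_image_le hfin).trans ?_⟩
      rw [Set.ncard_prod, Set.ncard_univ, Nat.card_eq_fintype_card, Fintype.card_fun, Fintype.card_fin, Fintype.card_fin, pow_succ, mul_comm]
      exact Nat.mul_le_mul (hW x).2 h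
    · exact ⟨Set.finite_empty, by rw [Set.ncard_empty]; exact Nat.zero_le _⟩
  refine hg y N (by omega) W' hWc (fun x w' hw' k => ?_) E fun m hm => ?_
  · rw [hW'] at hw'
    beta_reduce at hw'
    split_ifs at hw' with h
    · obtain ⟨z, hz, rfl⟩ := hw'
      exact wt_le z.2 (hW1 x z.2 hz.2) z.1 k
    · exact absurd hw' (Set.notMem_empty _)
  · refine hE m fun x hyx hxr w hw q hq => ?_
    have hfin : ∀ k : ℕ, Finite ((e : Fin s) → (R →+* ZMod (Nat.nth Nat.Prime (k + e)))) := by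
      intro k
      have : ∀ e : Fin s, Finite (R →+* ZMod (Nat.nth Nat.Prime (k + e))) := fun e => hom_finite R _
      exact Pi.finite
    have hft : ∀ k : ℕ, Nonempty (Fintype ((e : Fin s) → (R →+* ZMod (Nat.nth Nat.Prime (k + e))))) := fun k => ⟨Fintype.ofFinite _⟩
    have hft2 : ∀ k : ℕ, Fintype ((e : Fin s) → (R →+* ZMod (Nat.nth Nat.Prime (k + e)))) := fun k => (hft k).some
    simp only [finsum_eq_sum_of_fintype]
    -- the decomposition
    have e1 : ∀ k, ∑ φ : (e : Fin s) → (R →+* ZMod (Nat.nth Nat.Prime (k + e))),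
        w k φ * (∏ e : Fin s, G (q e) (Nat.nth Nat.Prime (k + e)) (fun j => φ e (cf ω m j)) - ∏ e : Fin s, M (q e) (Nat.nth Nat.Prime (k + e))) =
        ∑ i : Fin s → Fin n, wt w i k * (∏ e : Fin s, LF ω (G (q e)) (i e) (Nat.nth Nat.Prime (k + e)) m -
          ∏ e : Fin s, LM R (M (q e)) (i e) (Nat.nth Nat.Prime (k + e))) := by
      intro k
      refine sum_num hn k _ _ ?_ ?_
      · intro i hi
        unfold wt
        rw [dif_neg hi, zero_mul]
      · intro i hi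
        exact wt_prod ω w (fun e => G (q e)) (fun e => M (q e)) m i k hi
    have e2 : ∀ k, ∑ φ : (e : Fin s) → (R →+* ZMod (Nat.nth Nat.Prime (k + e))), w k φ ^ 2 = ∑ i : Fin s → Fin n, wt w i k ^ 2 := by
      intro k
      refine sum_num hn k _ _ ?_ ?_
      · intro i hi
        unfold wt
        rw [dif_neg hi, zero_pow two_ne_zero]
      · intro i hi
        unfold wt
        rw [dif_pos hi]
    have hWx : ∀ i : Fin s → Fin n, wt w i ∈ W' x := by
      intro i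
      rw [hW']
      beta_reduce
      rw [if_pos (by omega : n ^ s ≤ x)]
      exact ⟨(i, w), ⟨Set.mem_univ _, hw⟩, rfl⟩
    have e3 : ∀ i : Fin s → Fin n, |∑ k ∈ range x, wt w i k * (∏ e : Fin s, LF ω (G (q e)) (i e) (Nat.nth Nat.Prime (k + e)) m -
          ∏ e : Fin s, LM R (M (q e)) (i e) (Nat.nth Nat.Prime (k + e)))| ≤
        Real.sqrt (max 1 (∑ k ∈ range x, ∑ i : Fin s → Fin n, wt w i k ^ 2)) * (x : ℝ) ^ (s * η + δ / 2) := by
      intro i
      have h1 := hm x hyx hxr (wt w i) (hWx i) (fun e => (q e, i e)) (fun e => mem_product.2 ⟨hq e, mem_univ _⟩)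
      have h2 : ∑ k ∈ range x, wt w i k * (∏ e : Fin s, LF ω (G (q e)) (i e) (Nat.nth Nat.Prime (k + e)) m -
          ∏ e : Fin s, LM R (M (q e)) (i e) (Nat.nth Nat.Prime (k + e))) =
          ∑ k ∈ range x, wt w i k * ∏ e : Fin s, LF ω (G (q e)) (i e) (pr (k + e)) m - ∑ k ∈ range x, wt w i k * ∏ e : Fin s, LM R (M (q e)) (i e) (pr (k + e)) := by
        rw [← sum_sub_distrib]
        refine sum_congr rfl fun k _ => ?_
        rw [← mul_sub]
        rfl
      rw [h2]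
      refine h1.trans ?_
      apply mul_le_mul_of_nonneg_right _ (by positivity)
      apply Real.sqrt_le_sqrt
      apply max_le_max le_rfl
      refine sum_le_sum fun k _ => ?_
      exact single_le_sum (f := fun i : Fin s → Fin n => wt w i k ^ 2) (fun i _ => sq_nonneg _) (mem_univ i)
    simp only [e1, e2]
    rw [sum_comm]
    refine (abs_sum_le_sum_abs _ _).trans ((sum_le_sum fun i _ => e3 i).trans ?_)
    rw [sum_const, card_univ, Fintype.card_fun, Fintype.card_fin, Fintype.card_fin, nsmul_eq_mul]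
    push_cast
    have hx0 : (0 : ℝ) ≤ x := Nat.cast_nonneg x
    by_cases hx1 : x = 0
    · rw [hx1]
      have hn0 : n ^ s = 0 := by omega
      have hn0' : ((n : ℝ)) ^ s = 0 := by exact_mod_cast hn0
      rw [hn0', zero_mul]
      positivity
    · have hx2 : (0 : ℝ) < x := by exact_mod_cast Nat.pos_of_ne_zero hx1
      have h8 := hx₀ x (by omega)
      have h9 : (x : ℝ) ^ (s * η + δ) = (x : ℝ) ^ (δ / 2) * (x : ℝ) ^ (s * η + δ / 2) := by
        rw [← Real.rpow_add hx2]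
        congr 1
        ring
      rw [h9]
      calc (n : ℝ) ^ s * (Real.sqrt (max 1 (∑ k ∈ range x, ∑ i : Fin s → Fin n, wt w i k ^ 2)) * (x : ℝ) ^ (s * η + δ / 2)) ≤
          (x : ℝ) ^ (δ / 2) * (Real.sqrt (max 1 (∑ k ∈ range x, ∑ i : Fin s → Fin n, wt w i k ^ 2)) * (x : ℝ) ^ (s * η + δ / 2)) :=
            mul_le_mul_of_nonneg_right h8 (by positivity)
        _ = _ := by ring

end

end Pool.Agent.N54.MW
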