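import Pool.Agent.N54.MW.ThinM

/-!
# Products of arbitrary local functions at several consecutive primes, at the integer parts of generalised polynomials

The analogue of `Pool.Agent.N842.ST.gen`.
-/

set_option autoImplicit false

namespace Pool.Agent.N54.MW

open Pool.Agent.N647.TS

open Finset
open Pool.Agent.TH894.NE (mean)
open Pool.Agent.TH894.NF (pr)

open Classical in
/-- **Products of local functions at several consecutive primes.** -/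
theorem genT (d s : ℕ) (hd : 1 ≤ d) (hs : 1 ≤ s) {vv : ℕ → Fin d → ℕ} {κw : ℝ}
    (hκw : 0 < κw) (h : WW vv κw) (δ : ℝ) (hδ : 0 < δ) (A B : ℕ) {Θ : Type} (Q : Finset Θ)
    (F : Θ → ℕ → (Fin d → ℕ) → ℝ) (M : Θ → ℕ → ℝ)
    (hper : ∀ θ ∈ Q, ∀ p, p.Prime → ∀ m, F θ p m = F θ p (fun j => m j % p))
    (hbd : ∀ θ ∈ Q, ∃ C : ℝ, ∀ p, p.Prime → (∀ m, |F θ p m| ≤ C) ∧ |M θ p| ≤ C)
    (hmean : ∀ θ ∈ Q, ∃ C : ℝ, 0 ≤ C ∧ ∀ p, p.Prime → |mean d p (F θ p) - M θ p| ≤ C / Real.sqrt p) :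
    ∃ κ : ℝ, 0 < κ ∧ ∃ y₀ : ℕ, ∀ y N : ℕ, y₀ ≤ y →
    ∀ W : ℕ → Set (ℕ → ℝ), (∀ x, (W x).Finite ∧ (W x).ncard ≤ x ^ B) → (∀ x, ∀ w ∈ W x, ∀ k, |w k| ≤ 1) →
    ∀ E : (Fin d → ℕ) → Prop,
    (∀ m : Fin d → ℕ, (∀ x : ℕ, y ≤ x → (x : ℝ) ≤ (N : ℝ) ^ κ → ∀ w ∈ W x, ∀ q : Fin s → Θ, (∀ e, q e ∈ Q) →
      |∑ k ∈ range x, w k * ∏ e : Fin s, F (q e) (pr (k + e)) m - ∑ k ∈ range x, w k * ∏ e : Fin s, M (q e) (pr (k + e))| ≤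
        Real.sqrt (max 1 (∑ k ∈ range x, w k ^ 2)) * (x : ℝ) ^ δ) → E m) →
    (((Ioc N (2 * N)).filter fun t => ¬ E (vv t)).card : ℝ) ≤ 1 / (y : ℝ) ^ A * N ∧
    ((((Ioc N (2 * N)).filter Nat.Prime).filter fun t => ¬ E (vv t)).card : ℝ) ≤
      1 / (y : ℝ) ^ A * ((Ioc N (2 * N)).filter Nat.Prime).card := by
  have hch : ∀ θ : {θ // θ ∈ Q}, ∃ C : ℝ, 0 ≤ C ∧ ∀ p : ℕ, p.Prime → |mean d p (F θ p) - M θ p| ≤ C / Real.sqrt p :=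
    fun θ => hmean θ.1 θ.2
  choose C hC0 hC using hch
  have hch2 : ∀ θ : {θ // θ ∈ Q}, ∃ C : ℝ, 0 ≤ C ∧ ∀ p : ℕ, p.Prime → (∀ m, |F θ p m| ≤ C) ∧ |M θ p| ≤ C := by
    intro θ
    obtain ⟨C, hC⟩ := hbd θ.1 θ.2
    exact ⟨C, (abs_nonneg _).trans (hC 2 Nat.prime_two).2, hC⟩
  choose β hβ0 hβ using hch2
  obtain ⟨C', hC'⟩ : ∃ C' : ℝ, C' = ∑ θ, C θ := ⟨_, rfl⟩
  have hC'0 : 0 ≤ C' := by
    rw [hC']
    exact sum_nonneg fun θ _ => hC0 θ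
  obtain ⟨B', hB'⟩ : ∃ B' : ℝ, B' = 1 + ∑ θ, β θ := ⟨_, rfl⟩
  have hββ : ∀ θ, β θ ≤ B' := by
    intro θ
    have h1 : β θ ≤ ∑ θ, β θ := single_le_sum (f := β) (fun θ _ => hβ0 θ) (mem_univ θ)
    rw [hB']
    linarith
  have hB'1 : 1 ≤ B' := by
    rw [hB']
    have : 0 ≤ ∑ θ, β θ := sum_nonneg fun θ _ => hβ0 θ
    linarith
  obtain ⟨κ, hκ, y₀, hM⟩ := thinM d s hd hs hκw h δ hδ A B {θ // θ ∈ Q} (fun θ p m => F θ p m) (fun θ p => M θ p) B' C' hB'1 hC'0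
    (fun θ p hp m => hper θ.1 θ.2 p hp m) (fun θ p hp m => ((hβ θ p hp).1 m).trans (hββ θ))
    (fun θ p hp => (hβ θ p hp).2.trans (hββ θ))
    (fun θ p hp => (hC θ p hp).trans (by
      apply div_le_div_of_nonneg_right _ (Real.sqrt_nonneg _)
      rw [hC']
      exact single_le_sum (f := C) (fun θ _ => hC0 θ) (mem_univ θ)))
  refine ⟨κ, hκ, y₀ + 2, fun y N hy W hW hW1 E hE => ?_⟩
  have hmain := hM y N (by omega) W hW hW1 E (fun m hm => hE m fun x hyx hxN w hw q hq => by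
    have := hm x (by omega) hyx hxN w hw (fun e => ⟨q e, hq e⟩)
    exact this)
  exact hmain

end Pool.Agent.N54.MW
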